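import Pool.Agent.W259.GS.Pack

set_option autoImplicit false

/-!
# Regions: graphs in which almost all two-step walks are heavy
-/

namespace Pool.Agent.Y394.AT

open Finset

open Classical in
/-- neighbourhood -/
noncomputable def nb {V : Type} [Fintype V] (G : SimpleGraph V) (v : V) : Finset V :=
  (univ : Finset V).filter (fun w => G.Adj v w)

open Classical in
/-- codegree -/
noncomputable def cd {V : Type} [Fintype V] (G : SimpleGraph V) (u v : V) : ℕ :=
  ((univ : Finset V).filter (fun w => G.Adj u w ∧ G.Adj v w)).card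

theorem mem_nb {V : Type} [Fintype V] (G : SimpleGraph V) (v w : V) :
    w ∈ nb G v ↔ G.Adj v w := by
  unfold nb
  simp

theorem cd_comm {V : Type} [Fintype V] (G : SimpleGraph V) (u v : V) :
    cd G u v = cd G v u := by
  classical
  unfold cd
  congr 1
  ext w
  simp only [Finset.mem_filter, Finset.mem_univ, true_and]
  tauto

theorem cd_self {V : Type} [Fintype V] (G : SimpleGraph V) (v : V) :
    cd G v v = (nb G v).card := by
  classical
  unfold cd nb
  congr 1
  ext w
  simp

/-- existence of nets -/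
theorem exists_net {V : Type} [Fintype V] (X : Finset V) (far : V → V → Prop)
    (hs : ∀ u v, far u v → far v u) :
    ∃ U : Finset V, U ⊆ X ∧ (∀ u ∈ U, ∀ v ∈ U, u ≠ v → far u v) ∧
      ∀ x ∈ X, ∃ a ∈ U, x = a ∨ ¬ far x a := by
  classical
  obtain ⟨P, hP⟩ : ∃ P : Finset V → Prop, ∀ U, P U ↔
      (U ⊆ X ∧ ∀ u ∈ U, ∀ v ∈ U, u ≠ v → far u v) := ⟨_, fun U => Iff.rfl⟩
  have hne : ((Finset.univ : Finset (Finset V)).filter P).Nonempty :=
    ⟨∅, Finset.mem_filter.2 ⟨Finset.mem_univ _, (hP ∅).2 (by simp)⟩⟩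
  obtain ⟨U, hU, hmax⟩ := Finset.exists_max_image _ Finset.card hne
  obtain ⟨hUX, hUf⟩ := (hP U).1 (Finset.mem_filter.1 hU).2
  refine ⟨U, hUX, hUf, ?_⟩
  intro x hx
  by_cases hxU : x ∈ U
  · exact ⟨x, hxU, Or.inl rfl⟩
  · by_contra hno
    push Not at hno
    have h2 : insert x U ∈ (Finset.univ : Finset (Finset V)).filter P := by
      rw [Finset.mem_filter, hP]
      refine ⟨Finset.mem_univ _, Finset.insert_subset hx hUX, ?_⟩
      intro u hu v hv huv
      rcases Finset.mem_insert.1 hu with hu1 | hu1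
      · rcases Finset.mem_insert.1 hv with hv1 | hv1
        · exact absurd (hu1.trans hv1.symm) huv
        · rw [hu1]
          exact (hno v hv1).2
      · rcases Finset.mem_insert.1 hv with hv1 | hv1
        · rw [hv1]
          exact hs _ _ (hno u hu1).2
        · exact hUf u hu1 v hv1 huv
    have h3 := hmax _ h2
    rw [Finset.card_insert_of_notMem hxU] at h3
    omega

/-- greedy colouring -/
theorem colorable_of_deg {V : Type} [Fintype V] (G : SimpleGraph V) (D : ℕ)
    (h : ∀ v, (nb G v).card ≤ D) : G.Colorable (D + 1) := by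
  classical
  have key : ∀ (m : ℕ) (S : Finset V), S.card = m →
      ∃ c : V → Fin (D + 1), ∀ a ∈ S, ∀ b ∈ S, G.Adj a b → c a ≠ c b := by
    intro m
    induction m with
    | zero =>
      intro S hS
      have : S = ∅ := Finset.card_eq_zero.mp hS
      subst this
      exact ⟨fun _ => 0, by simp⟩
    | succ m ih =>
      intro S hS
      have hne : S.Nonempty := Finset.card_pos.mp (by omega)
      obtain ⟨v, hv⟩ := hne
      obtain ⟨c, hc⟩ := ih (S.erase v) (by rw [Finset.card_erase_of_mem hv]; omega)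
      have h1 : ((nb G v).image c).card < (univ : Finset (Fin (D + 1))).card := by
        rw [Finset.card_univ, Fintype.card_fin]
        exact Nat.lt_succ_of_le (Finset.card_image_le.trans (h v))
      obtain ⟨i, _, hi⟩ := Finset.exists_mem_notMem_of_card_lt_card h1
      refine ⟨fun w => if w = v then i else c w, ?_⟩
      intro a ha b hb hab
      by_cases hav : a = v
      · by_cases hbv : b = v
        · rw [hav, hbv] at hab
          exact absurd hab (G.loopless.irrefl _)
        · simp only [hav, hbv, if_true, if_false]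
          intro hh
          apply hi
          rw [Finset.mem_image]
          refine ⟨b, ?_, hh.symm⟩
          rw [mem_nb, ← hav]
          exact hab
      · by_cases hbv : b = v
        · simp only [hav, hbv, if_true, if_false]
          intro hh
          apply hi
          rw [Finset.mem_image]
          refine ⟨a, ?_, hh⟩
          rw [mem_nb, ← hbv]
          exact hab.symm
        · simp only [hav, hbv, if_false]
          exact hc a (Finset.mem_erase.2 ⟨hav, ha⟩) b (Finset.mem_erase.2 ⟨hbv, hb⟩) hab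
  obtain ⟨c, hc⟩ := key _ (univ : Finset V) rfl
  exact ⟨SimpleGraph.Coloring.mk c (fun {a b} hab => hc a (mem_univ _) b (mem_univ _) hab)⟩

/-- vertices at the end of walks of length `k` -/
def Rch {V : Type} (G : SimpleGraph V) (k : ℕ) (u y : V) : Prop :=
  ∃ p : G.Walk u y, p.length = k

theorem Rch.symm {V : Type} {G : SimpleGraph V} {k : ℕ} {u y : V} (h : Rch G k u y) :
    Rch G k y u := by
  obtain ⟨p, hp⟩ := h
  exact ⟨p.reverse, by rw [SimpleGraph.Walk.length_reverse, hp]⟩

theorem Rch.zero {V : Type} {G : SimpleGraph V} {u y : V} (h : Rch G 0 u y) : y = u := by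
  obtain ⟨p, hp⟩ := h
  exact (SimpleGraph.Walk.eq_of_length_eq_zero hp).symm

theorem Rch.step {V : Type} {G : SimpleGraph V} {k : ℕ} {u y : V} (h : Rch G (k + 1) u y) :
    ∃ x, Rch G k u x ∧ G.Adj x y := by
  obtain ⟨p, hp⟩ := h.symm
  cases p with
  | nil => simp at hp
  | cons hadj q =>
    rename_i v
    refine ⟨v, Rch.symm ⟨q, ?_⟩, hadj.symm⟩
    simpa using hp

/-- a uniform weight -/
theorem packing_unif (N : ℕ) (δ : ℝ) (hδ : 0 < δ) : ∃ M : ℕ, ∀ (V : Type) [Fintype V]
    (G : SimpleGraph V) (K : Finset V), K.Nonempty →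
    (∀ X : Finset V, Pool.Agent.W259.GS.Sh G X Set.univ → X.card < N) →
    ∀ U : Finset V, (∀ u ∈ U, ∀ v ∈ U, u ≠ v →
      δ * (K.card : ℝ) ≤ Set.ncard {z | z ∈ K ∧ ¬ (G.Adj u z ↔ G.Adj v z)}) → U.card < M := by
  classical
  obtain ⟨M, hM⟩ := Pool.Agent.W259.GS.packing N δ hδ
  refine ⟨M, ?_⟩
  intro V _ G K hK hsh U hU
  have hK0 : (0 : ℝ) < (K.card : ℝ) := by exact_mod_cast Finset.card_pos.2 hK
  refine hM V G (fun v => if v ∈ K then 1 / (K.card : ℝ) else 0) ?_ ?_ hsh U ?_
  · intro v
    by_cases hv : v ∈ K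
    · rw [if_pos hv]
      positivity
    · rw [if_neg hv]
  · rw [← Finset.sum_filter, Finset.filter_mem_eq_inter, Finset.univ_inter, Finset.sum_const,
      nsmul_eq_mul]
    field_simp
  · intro u hu v hv huv
    have h1 := hU u hu v hv huv
    have h2 : Pool.Agent.W259.GS.nd G (fun v => if v ∈ K then 1 / (K.card : ℝ) else 0) u v =
        (Set.ncard {z | z ∈ K ∧ ¬ (G.Adj u z ↔ G.Adj v z)} : ℝ) * (1 / (K.card : ℝ)) := by
      have h3 : {z | z ∈ K ∧ ¬ (G.Adj u z ↔ G.Adj v z)} =
          ((K.filter (fun z => ¬ (G.Adj u z ↔ G.Adj v z)) : Finset V) : Set V) := by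
        ext z
        simp
      rw [h3, Set.ncard_coe_finset]
      unfold Pool.Agent.W259.GS.nd
      rw [← nsmul_eq_mul, ← Finset.sum_const]
      have h4 : ∀ z, (if (G.Adj u z ↔ G.Adj v z) then (0 : ℝ) else
          (if z ∈ K then 1 / (K.card : ℝ) else 0)) =
          if (z ∈ K ∧ ¬ (G.Adj u z ↔ G.Adj v z)) then 1 / (K.card : ℝ) else 0 := by
        intro z
        by_cases hz : (G.Adj u z ↔ G.Adj v z)
        · rw [if_pos hz, if_neg (fun h => h.2 hz)]
        · rw [if_neg hz]
          by_cases hzK : z ∈ K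
          · rw [if_pos hzK, if_pos ⟨hzK, hz⟩]
          · rw [if_neg hzK, if_neg (fun h => hzK h.1)]
      rw [Finset.sum_congr rfl (fun z _ => h4 z), ← Finset.sum_filter]
      apply Finset.sum_congr _ (fun _ _ => rfl)
      ext z
      simp
    rw [h2]
    rw [mul_one_div, le_div_iff₀ hK0]
    exact h1

end Pool.Agent.Y394.AT
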