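import Pool.Agent.Y394.AT.Embed
import Pool.Agent.Y394.AT.Color
import Pool.Agent.H367R3.GSForest

set_option autoImplicit false

/-!
# The Gyárfás–Sumner conjecture for graphs all of whose arcs see the same codegrees
-/

namespace Pool.Agent.Y394.AT

open Finset

open Classical in
/-- light continuations of the arc `a b` -/
noncomputable def lc {V : Type} [Fintype V] (G : SimpleGraph V) (t : ℕ) (a b : V) : Finset V :=
  (nb G b).filter (fun w => w ≠ a ∧ ¬ G.Adj a w ∧ cd G a w < t)

/-- Every arc sees the same codegrees. -/
def Unif {V : Type} [Fintype V] (G : SimpleGraph V) : Prop :=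
  ∀ a b a' b', G.Adj a b → G.Adj a' b' → (nb G b).card = (nb G b').card ∧
    cd G a b = cd G a' b' ∧ ∀ t, (lc G t a b).card = (lc G t a' b').card

open Classical in
theorem exists_color (m : ℕ) (F : SimpleGraph (Fin m)) (hF : F.IsAcyclic) (k : ℕ) (hk : 1 ≤ k) :
    ∃ C : ℕ, ∀ (V : Type) [Fintype V] (G : SimpleGraph V), Unif G → G.CliqueFree (k + 1) →
      IsEmpty (F ↪g G) → G.Colorable C := by
  obtain ⟨N0, hN0⟩ := Pool.Agent.W259.GS.noShatter F hF.colorable_two (k + 1)
  obtain ⟨T, hT, ⟨ι⟩⟩ := Pool.Agent.H367R3.forest_in_tree F hF
  have hkR : (1 : ℝ) ≤ k := by exact_mod_cast hk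
  have hk0 : (0 : ℝ) < k := by linarith
  -- the light systems
  have hE : ∀ ε : ℝ, ∃ δ : ℝ, 0 < δ ∧ ∃ d0 : ℝ, 0 < ε → ∀ (V : Type) [Fintype V]
      (G : SimpleGraph V) (d : ℝ), d0 ≤ d → 1 ≤ d → Reg G d → Unif G → G.CliqueFree (k + 1) →
      IsEmpty (F ↪g G) → Heavy G d ε δ := by
    intro ε
    by_cases hε : 0 < ε
    swap
    · exact ⟨1, one_pos, 0, fun h => absurd h hε⟩
    set lam : ℝ := min 1 (ε / 2) with hlam
    have hlam0 : 0 < lam := by
      rw [hlam]
      exact lt_min one_pos (by positivity)
    have hlam1 : lam ≤ 1 := min_le_left _ _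
    have hlamε : lam ≤ ε / 2 := min_le_right _ _
    obtain ⟨δe, hδe, d0, hemb⟩ := embed_tree (m + 1) k (by omega) hk lam hlam0 hlam1
    refine ⟨min δe lam, lt_min hδe hlam0, d0, fun _ => ?_⟩
    intro V _ G d hd hd1 hreg hunif hfree hemp
    have hd0 : 0 < d := by linarith
    -- the light continuations are few
    have hfew : ∀ z x, G.Adj z x → ((lc G ⌈δe * d⌉₊ z x).card : ℝ) < lam * d := by
      intro z0 x0 hzx0
      by_contra hcon
      push Not at hcon
      have hsys : LightSystem G d δe lam G.Adj (fun z x => lc G ⌈δe * d⌉₊ z x) :=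
        { adj := fun z x h => h
          deg := fun v => by
            have := hreg.le hd0.le v
            unfold nb at this
            exact this
          cont := by
            intro z x hzx w hw
            unfold lc at hw
            obtain ⟨h1, h2, h3, _⟩ := Finset.mem_filter.1 hw
            exact ⟨(mem_nb G x w).1 h1, h2, h3⟩
          large := by
            intro z x hzx
            rw [(hunif z x z0 x0 hzx hzx0).2.2]
            exact hcon
          light := by
            intro z y
            by_cases hex : ∃ x, G.Adj z x ∧ y ∈ lc G ⌈δe * d⌉₊ z x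
            · obtain ⟨x, hzx, hy⟩ := hex
              unfold lc at hy
              obtain ⟨_, _, _, h4⟩ := Finset.mem_filter.1 hy
              rw [Nat.lt_ceil] at h4
              refine le_trans ?_ h4.le
              have : ((univ : Finset V).filter
                  (fun x => G.Adj z x ∧ y ∈ lc G ⌈δe * d⌉₊ z x)).card ≤ cd G z y := by
                unfold cd
                apply Finset.card_le_card
                intro x' hx'
                obtain ⟨_, h5, h6⟩ := Finset.mem_filter.1 hx'
                unfold lc at h6
                have h7 := (mem_nb G x' y).1 (Finset.mem_filter.1 h6).1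
                exact Finset.mem_filter.2 ⟨Finset.mem_univ _, h5, h7.symm⟩
              exact_mod_cast this
            · push Not at hex
              have : (univ : Finset V).filter
                  (fun x => G.Adj z x ∧ y ∈ lc G ⌈δe * d⌉₊ z x) = ∅ := by
                rw [Finset.filter_eq_empty_iff]
                intro x _ h
                exact hex x h.1 h.2
              rw [this]
              simp only [Finset.card_empty, Nat.cast_zero]
              positivity }
      obtain ⟨f, hf1, hf2⟩ := hemb V G d G.Adj _ hd hsys ⟨z0, x0, hzx0⟩ hfree m (by omega)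
        (Fin (m + 1)) T hT (by simp)
      let g : T ↪g G := { toFun := f, inj' := hf1, map_rel_iff' := fun {a b} => (hf2 a b).symm }
      exact hemp.false (ι.trans g)
    intro z x hzx
    have h1 := hfew z x hzx
    -- adjacent continuations
    have hadjc : (((nb G x).filter (fun w => G.Adj z w ∧ (cd G z w : ℝ) < lam * d)).card : ℝ)
        ≤ lam * d := by
      by_cases hex : ∃ w ∈ nb G x, G.Adj z w ∧ (cd G z w : ℝ) < lam * d
      · obtain ⟨w, _, hzw, hw⟩ := hex
        refine le_trans ?_ hw.le
        rw [(hunif z w z x hzw hzx).2.1]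
        have : ((nb G x).filter (fun w => G.Adj z w ∧ (cd G z w : ℝ) < lam * d)).card ≤
            cd G z x := by
          unfold cd
          apply Finset.card_le_card
          intro v hv
          obtain ⟨h2, h3, _⟩ := Finset.mem_filter.1 hv
          exact Finset.mem_filter.2 ⟨Finset.mem_univ _, h3, (mem_nb G x v).1 h2⟩
        exact_mod_cast this
      · push Not at hex
        have : (nb G x).filter (fun w => G.Adj z w ∧ (cd G z w : ℝ) < lam * d) = ∅ := by
          rw [Finset.filter_eq_empty_iff]
          intro w hw h
          exact absurd h.2 (not_lt.2 (hex w hw h.1))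
        rw [this]
        simp only [Finset.card_empty, Nat.cast_zero]
        positivity
    have hsub : (nb G x).filter (fun w => (cd G z w : ℝ) < min δe lam * d) ⊆
        lc G ⌈δe * d⌉₊ z x ∪ (nb G x).filter (fun w => G.Adj z w ∧ (cd G z w : ℝ) < lam * d) := by
      intro w hw
      obtain ⟨hw1, hw2⟩ := Finset.mem_filter.1 hw
      rw [Finset.mem_union]
      by_cases hzw : G.Adj z w
      · right
        refine Finset.mem_filter.2 ⟨hw1, hzw, lt_of_lt_of_le hw2 ?_⟩
        exact mul_le_mul_of_nonneg_right (min_le_right _ _) hd0.le
      · left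
        unfold lc
        refine Finset.mem_filter.2 ⟨hw1, ?_, hzw, ?_⟩
        · rintro rfl
          rw [cd_self, hreg.eq hzx] at hw2
          have h3 : min δe lam * d ≤ 1 * d :=
            mul_le_mul_of_nonneg_right ((min_le_right _ _).trans hlam1) hd0.le
          linarith
        · rw [Nat.lt_ceil]
          refine lt_of_lt_of_le hw2 ?_
          exact mul_le_mul_of_nonneg_right (min_le_left _ _) hd0.le
    have h2 : (((nb G x).filter (fun w => (cd G z w : ℝ) < min δe lam * d)).card : ℝ) ≤
        (lc G ⌈δe * d⌉₊ z x).card +
        ((nb G x).filter (fun w => G.Adj z w ∧ (cd G z w : ℝ) < lam * d)).card := by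
      exact_mod_cast (Finset.card_le_card hsub).trans (Finset.card_union_le _ _)
    have h3 : lam * d ≤ ε / 2 * d := mul_le_mul_of_nonneg_right hlamε hd0.le
    linarith
  choose δf hδf D0 hD0 using hE
  obtain ⟨C, d1, hC⟩ := colour N0 δf D0 (fun ε _ => hδf ε) (1 / k) (by positivity)
    (by rw [div_le_one hk0]; exact hkR)
  refine ⟨max C (⌈max d1 1⌉₊ + 1), ?_⟩
  intro V _ G hunif hfree hemp
  by_cases hedge : ∃ a b, G.Adj a b
  swap
  · push Not at hedge
    have : G.Colorable (0 + 1) := colorable_of_deg G 0 (by
      intro v
      rw [Nat.le_zero, Finset.card_eq_zero, Finset.eq_empty_iff_forall_notMem]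
      intro w hw
      exact hedge v w ((mem_nb G v w).1 hw))
    exact this.mono (le_trans (by omega) (le_max_right _ _))
  obtain ⟨a0, b0, hab0⟩ := hedge
  set D : ℕ := (nb G b0).card with hD
  have hreg : Reg G (D : ℝ) := by
    intro v
    by_cases hv : (nb G v).card = 0
    · exact Or.inr hv
    · left
      obtain ⟨w, hw⟩ := Finset.card_pos.1 (Nat.pos_of_ne_zero hv)
      have := (hunif w v a0 b0 ((mem_nb G v w).1 hw).symm hab0).1
      exact_mod_cast this
  have hD1 : 1 ≤ D := Finset.card_pos.2 ⟨a0, (mem_nb G b0 a0).2 hab0.symm⟩
  by_cases hbig : max d1 1 ≤ (D : ℝ)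
  · have hd1 : d1 ≤ (D : ℝ) := (le_max_left _ _).trans hbig
    have hD1R : (1 : ℝ) ≤ (D : ℝ) := (le_max_right _ _).trans hbig
    have hcol := hC V G D hd1 hD1R hreg
      (fun ε hε hD0' => hD0 ε hε V G D hD0' hD1R hreg hunif hfree hemp)
      (fun X hX => hN0 V G X hfree hemp hX) (by
        intro v v' hvv'
        by_contra hcon
        push Not at hcon
        -- all edges have large codegree
        have hL : ∀ w ∈ nb G v, G.Adj v w := fun w hw => (mem_nb G v w).1 hw
        have hvc : ((nb G v).card : ℝ) = D := hreg.eq hvv'
        have h1 := few_dense G k hfree v (nb G v) hL (nb G v) (Finset.Subset.refl _) (by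
          intro w hw
          have h2 : cd G v w = cd G v v' := (hunif v w v v' (hL w hw) hvv').2.1
          have h3 : ((nb G v).filter (fun y => ¬ G.Adj w y)).card + cd G v w ≤
              (nb G v).card := by
            unfold cd
            rw [← Finset.card_union_of_disjoint]
            · apply Finset.card_le_card
              intro y hy
              rw [Finset.mem_union, Finset.mem_filter, Finset.mem_filter] at hy
              rcases hy with hy | hy
              · exact hy.1
              · exact (mem_nb G v y).2 hy.2.1
            · rw [Finset.disjoint_left]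
              intro y hy hy'
              exact (Finset.mem_filter.1 hy).2 (Finset.mem_filter.1 hy').2.2
          have h3' : (((nb G v).filter (fun y => ¬ G.Adj w y)).card : ℝ) + cd G v w ≤
              (nb G v).card := by exact_mod_cast h3
          rw [h2, hvc] at h3'
          rw [hvc]
          have h4 : (((nb G v).filter (fun y => ¬ G.Adj w y)).card : ℝ) ≤ 1 / k * D := by
            linarith
          calc (k : ℝ) * (((nb G v).filter (fun y => ¬ G.Adj w y)).card : ℝ) ≤
                k * (1 / k * D) := mul_le_mul_of_nonneg_left h4 hk0.le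
            _ = D := by field_simp)
        rw [hvc] at h1
        nlinarith)
    exact hcol.mono (le_max_left _ _)
  · push Not at hbig
    have hDle : D ≤ ⌈max d1 1⌉₊ := by
      have : (D : ℝ) ≤ ⌈max d1 1⌉₊ := hbig.le.trans (Nat.le_ceil _)
      exact_mod_cast this
    have : G.Colorable (⌈max d1 1⌉₊ + 1) := colorable_of_deg G _ (by
      intro v
      rcases hreg v with h | h
      · have : (nb G v).card = D := by exact_mod_cast h
        rw [this]
        exact hDle
      · omega)
    exact this.mono (le_max_right _ _)

end Pool.Agent.Y394.AT
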