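import Mathlib

set_option autoImplicit false

/-!
# Building induced trees vertex by vertex, and cliques inside neighbourhoods
-/

namespace Pool.Agent.Y394.AT

open Finset

/-- Building induced trees vertex by vertex. -/
theorem tree_embed {V : Type} [DecidableEq V] (G : SimpleGraph V) (Inv : ℕ → Finset V → Prop)
    (N : ℕ) (start : ∃ y, Inv 1 {y})
    (step : ∀ n, 1 ≤ n → n < N → ∀ S : Finset V, S.card = n → Inv n S → ∀ p ∈ S,
      ∃ y, y ∉ S ∧ G.Adj p y ∧ (∀ s ∈ S, s ≠ p → ¬ G.Adj s y) ∧ Inv (n + 1) (insert y S)) :
    ∀ n : ℕ, n < N → ∀ (α : Type) [Fintype α] [DecidableEq α] (T : SimpleGraph α), T.IsTree →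
      Fintype.card α = n + 1 → ∃ f : α → V, Function.Injective f ∧
        Inv (n + 1) ((univ : Finset α).image f) ∧ ∀ a b, T.Adj a b ↔ G.Adj (f a) (f b) := by
  intro n
  induction n with
  | zero =>
    intro _ α _ _ T hT hV
    have hsub : Subsingleton α := Fintype.card_le_one_iff_subsingleton.1 (by omega)
    have hne : Nonempty α := Fintype.card_pos_iff.1 (by omega)
    obtain ⟨y, hy⟩ := start
    refine ⟨fun _ => y, fun v w _ => Subsingleton.elim v w, ?_, ?_⟩
    · have : (univ : Finset α).image (fun _ => y) = {y} := by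
        ext z
        simp [eq_comm]
      rw [this]
      exact hy
    · intro a b
      rw [Subsingleton.elim a b]
      simp
  | succ n ih =>
    intro hn α _ _ T hT hV
    classical
    have hnt : Nontrivial α := by
      rw [← Fintype.one_lt_card_iff_nontrivial]
      omega
    obtain ⟨l, hl⟩ := hT.exists_vert_degree_one_of_nontrivial
    have hconn := hT.connected.induce_compl_singleton_of_degree_eq_one hl
    have hT' : (T.induce ({l}ᶜ : Set α)).IsTree := ⟨hconn, hT.isAcyclic.induce _⟩
    obtain ⟨u, hu, huu⟩ := SimpleGraph.degree_eq_one_iff_existsUnique_adj.1 hl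
    have hu' : u ∈ ({l}ᶜ : Set α) := fun h => hu.ne h.symm
    have hcard : Fintype.card ({l}ᶜ : Set α) = n + 1 := by
      rw [Fintype.card_compl_set, hV]
      simp
    obtain ⟨f, hf1, hf2, hf3⟩ := ih (by omega) _ (T.induce ({l}ᶜ : Set α)) hT' hcard
    have hmem : ∀ v, v ≠ l → v ∈ ({l}ᶜ : Set α) := fun v h => h
    have hScard : ((univ : Finset ({l}ᶜ : Set α)).image f).card = n + 1 := by
      rw [Finset.card_image_of_injective _ hf1, Finset.card_univ, hcard]
    obtain ⟨y, hy1, hy2, hy3, hy4⟩ := step (n + 1) (by omega) hn _ hScard hf2 (f ⟨u, hu'⟩)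
      (Finset.mem_image_of_mem _ (Finset.mem_univ _))
    have hyS : ∀ v, y ≠ f v := by
      intro v h
      exact hy1 (h ▸ Finset.mem_image_of_mem _ (Finset.mem_univ _))
    let g : α → V := fun v => if h : v = l then y else f ⟨v, hmem v h⟩
    have hgl : g l = y := by
      simp only [g]
      rw [dif_pos trivial]
    have hg : ∀ v (h : v ≠ l), g v = f ⟨v, hmem v h⟩ := by
      intro v h
      simp only [g]
      rw [dif_neg h]
    have hlw : ∀ w, w ≠ l → (T.Adj l w ↔ G.Adj (g l) (g w)) := by
      intro w hw
      rw [hgl, hg w hw]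
      by_cases hwu : w = u
      · subst hwu
        exact ⟨fun _ => hy2.symm, fun _ => hu⟩
      · have hne : f ⟨w, hmem w hw⟩ ≠ f ⟨u, hu'⟩ := by
          intro h
          exact hwu (congrArg Subtype.val (hf1 h))
        constructor
        · intro h
          exact absurd (huu w h) hwu
        · intro h
          exact absurd h.symm
            (hy3 _ (Finset.mem_image_of_mem _ (Finset.mem_univ _)) hne)
    refine ⟨g, ?_, ?_, ?_⟩
    · intro v w hvw
      by_cases hv : v = l
      · by_cases hw : w = l
        · rw [hv, hw]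
        · rw [hv, hgl, hg w hw] at hvw
          exact absurd hvw (hyS _)
      · by_cases hw : w = l
        · rw [hw, hgl, hg v hv] at hvw
          exact absurd hvw.symm (hyS _)
        · rw [hg v hv, hg w hw] at hvw
          exact congrArg Subtype.val (hf1 hvw)
    · have : (univ : Finset α).image g = insert y ((univ : Finset ({l}ᶜ : Set α)).image f) := by
        ext z
        simp only [Finset.mem_image, Finset.mem_univ, true_and, Finset.mem_insert]
        constructor
        · rintro ⟨v, rfl⟩
          by_cases hv : v = l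
          · left
            rw [hv, hgl]
          · right
            exact ⟨_, (hg v hv).symm⟩
        · rintro (rfl | ⟨v, rfl⟩)
          · exact ⟨l, hgl⟩
          · exact ⟨v.1, hg v.1 v.2⟩
      rw [this]
      exact hy4
    · intro a b
      by_cases ha : a = l
      · by_cases hb : b = l
        · rw [ha, hb]
          simp
        · rw [ha]
          exact hlw b hb
      · by_cases hb : b = l
        · rw [hb, T.adj_comm, G.adj_comm]
          exact hlw a ha
        · rw [hg a ha, hg b hb, ← hf3]
          rfl

/-- Inside a neighbourhood of a graph without `(k + 1)`-cliques there are not too many vertices with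
few non-neighbours. -/
theorem few_dense {V : Type} [DecidableEq V] (G : SimpleGraph V) [DecidableRel G.Adj] (k : ℕ)
    (hG : G.CliqueFree (k + 1)) (p : V) (L : Finset V) (hL : ∀ w ∈ L, G.Adj p w)
    (B : Finset V) (hBL : B ⊆ L)
    (hB : ∀ w ∈ B, (k : ℝ) * ((L.filter (fun y => ¬ G.Adj w y)).card : ℝ) ≤ L.card) :
    (k : ℝ) * (B.card : ℝ) ≤ ((k : ℝ) - 1) * (L.card : ℝ) := by
  by_contra hcon
  push Not at hcon
  have key : ∀ j : ℕ, j ≤ k → ∃ Q : Finset V, Q ⊆ B ∧ G.IsNClique j Q ∧
      ((k : ℝ) - j) * (L.card : ℝ) ≤
        (k : ℝ) * ((L.filter (fun y => ∀ q ∈ Q, G.Adj q y)).card : ℝ) := by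
    intro j
    induction j with
    | zero =>
      intro _
      refine ⟨∅, by simp, by simp [SimpleGraph.isNClique_iff], ?_⟩
      simp
    | succ j ih =>
      intro hj
      obtain ⟨Q, hQ1, hQ2, hQ3⟩ := ih (by omega)
      set C := L.filter (fun y => ∀ q ∈ Q, G.Adj q y) with hC
      have hCL : C ⊆ L := Finset.filter_subset _ _
      have h1 : (B.card : ℝ) + C.card ≤ ((B ∩ C).card : ℝ) + L.card := by
        have h2 := Finset.card_union_add_card_inter B C
        have h3 : (B ∪ C).card ≤ L.card := Finset.card_le_card (Finset.union_subset hBL hCL)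
        have h4 : B.card + C.card ≤ (B ∩ C).card + L.card := by omega
        exact_mod_cast h4
      have hk0 : (0 : ℝ) ≤ k := Nat.cast_nonneg _
      have hj' : (j : ℝ) + 1 ≤ k := by exact_mod_cast hj
      have h2 : 0 < (k : ℝ) * ((B ∩ C).card : ℝ) := by
        have h3 := mul_le_mul_of_nonneg_left h1 hk0
        have h4 : 0 ≤ ((k : ℝ) - (j + 1)) * (L.card : ℝ) :=
          mul_nonneg (by linarith) (Nat.cast_nonneg _)
        nlinarith
      have h3 : (B ∩ C).Nonempty := by
        rw [Finset.nonempty_iff_ne_empty]
        intro h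
        rw [h] at h2
        simp at h2
      obtain ⟨b, hb⟩ := h3
      obtain ⟨hbB, hbC⟩ := Finset.mem_inter.1 hb
      have hbadj : ∀ q ∈ Q, G.Adj q b := (Finset.mem_filter.1 hbC).2
      refine ⟨insert b Q, Finset.insert_subset hbB hQ1, ?_, ?_⟩
      · exact hQ2.insert (fun q hq => (hbadj q hq).symm)
      · have h4 : C.card ≤ (L.filter (fun y => ∀ q ∈ insert b Q, G.Adj q y)).card +
            (L.filter (fun y => ¬ G.Adj b y)).card := by
          rw [← Finset.card_union_add_card_inter]
          refine le_trans (Finset.card_le_card ?_) (Nat.le_add_right _ _)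
          intro y hy
          obtain ⟨hyL, hyQ⟩ := Finset.mem_filter.1 hy
          rw [Finset.mem_union, Finset.mem_filter, Finset.mem_filter]
          by_cases hby : G.Adj b y
          · left
            refine ⟨hyL, ?_⟩
            intro q hq
            rcases Finset.mem_insert.1 hq with rfl | hq
            · exact hby
            · exact hyQ q hq
          · exact Or.inr ⟨hyL, hby⟩
        have h5 : (C.card : ℝ) ≤ ((L.filter (fun y => ∀ q ∈ insert b Q, G.Adj q y)).card : ℝ) +
            ((L.filter (fun y => ¬ G.Adj b y)).card : ℝ) := by exact_mod_cast h4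
        have h6 := mul_le_mul_of_nonneg_left h5 hk0
        have h7 := hB b hbB
        push_cast
        nlinarith
  obtain ⟨Q, hQ1, hQ2, _⟩ := key k le_rfl
  exact hG (insert p Q) (hQ2.insert (fun q hq => hL q (hBL (hQ1 hq))))

end Pool.Agent.Y394.AT
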